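import Mathlib

set_option autoImplicit false

namespace Pool.Agent.Results.MP_52e257_al.Yes

section
variable (F : Type) {A : Type} [Field F] [AddCommGroup A] [Module F A] (μ : A → A → A)

def Bilin : Prop := (∀ a, IsLinearMap F (μ a)) ∧ ∀ b, IsLinearMap F fun a => μ a b

/-- The associator. -/
def asc (x y z : A) : A := μ (μ x y) z - μ x (μ y z)

def NCJordan : Prop := ∀ x y, asc μ x y x = 0 ∧ asc μ (μ x x) y x = 0

def Alternative : Prop := ∀ x y, asc μ x x y = 0 ∧ asc μ y x x = 0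

def Jordan : Prop := ∀ x y, μ x y = μ y x ∧ asc μ (μ x x) y x = 0

def Simple : Prop := (∃ x y, μ x y ≠ 0) ∧
  ∀ U : Submodule F A, (∀ a, ∀ u ∈ U, μ a u ∈ U ∧ μ u a ∈ U) → U = ⊥ ∨ U = ⊤

end

/-- The split colour algebra over the reals. -/
def μ (x y : Fin 7 → ℝ) : Fin 7 → ℝ :=
  ![x 0 * y 0 + x 1 * y 4 + x 2 * y 5 + x 3 * y 6 + x 4 * y 1 + x 5 * y 2 + x 6 * y 3,
    x 0 * y 1 + y 0 * x 1 - 2 * (x 5 * y 6 - x 6 * y 5),
    x 0 * y 2 + y 0 * x 2 - 2 * (x 6 * y 4 - x 4 * y 6),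
    x 0 * y 3 + y 0 * x 3 - 2 * (x 4 * y 5 - x 5 * y 4),
    x 0 * y 4 + y 0 * x 4 + (x 2 * y 3 - x 3 * y 2),
    x 0 * y 5 + y 0 * x 5 + (x 3 * y 1 - x 1 * y 3),
    x 0 * y 6 + y 0 * x 6 + (x 1 * y 2 - x 2 * y 1)]

def e (i : Fin 7) (c : ℝ) : Fin 7 → ℝ := Pi.single i c

theorem result : ∃ (F A : Type) (_ : Field F) (_ : AddCommGroup A) (_ : Module F A) (μ : A → A → A),
    Bilin F μ ∧ Simple F μ ∧ ¬Module.Finite F A ∧ NCJordan μ ∧
    (∀ x y, asc μ (μ x y - μ y x) y y = 0) ∧ ¬Alternative μ ∧ ¬Jordan μ := by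
  refine ⟨ℚ, Fin 7 → ℝ, _, _, inferInstance, μ, ⟨fun a => ⟨fun x y => ?_, fun c x => ?_⟩,
    fun a => ⟨fun x y => ?_, fun c x => ?_⟩⟩, ⟨⟨e 0 1, e 0 1, fun h => ?_⟩, fun U hU => ?_⟩,
    fun h => ?_, fun x y => ⟨?_, ?_⟩, fun x y => ?_, fun h => ?_, fun h => ?_⟩
  iterate 4 ext i; fin_cases i <;> simp [μ, Rat.smul_def] <;> ring
  · simpa [μ, e] using congrFun h 0
  · refine or_iff_not_imp_right.2 fun ht => eq_bot_iff.2 fun u hu => ?_
    have k : ∀ c, e 0 c ∈ U → c = 0 := fun c hc => by_contra fun h0 => ht (eq_top_iff.2 fun a _ => by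
      convert (hU (c⁻¹ • a) _ hc).1
      ext i
      fin_cases i <;> simp [μ, e] <;> field_simp)
    have s : ∀ a, ∀ u ∈ U, μ a u + μ u a ∈ U := fun a u hu => U.add_mem (hU a u hu).1 (hU a u hu).2
    have t : ∀ i j, e 0 (8 * u j) = (fun w => μ (e j 1) w + μ w (e j 1))
        ((fun w => μ (e i 1) w + μ w (e i 1)) (μ (e i 1) u + μ u (e i 1))) → u j = 0 := fun i j h => by
      have := k _ (by rw [h]; exact s _ _ (s _ _ (s _ _ hu)))
      linarith
    have h1 := t 4 1 (by ext i; fin_cases i <;> simp [μ, e] <;> ring)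
    have h2 := t 5 2 (by ext i; fin_cases i <;> simp [μ, e] <;> ring)
    have h3 := t 6 3 (by ext i; fin_cases i <;> simp [μ, e] <;> ring)
    have h4 := t 1 4 (by ext i; fin_cases i <;> simp [μ, e] <;> ring)
    have h5 := t 2 5 (by ext i; fin_cases i <;> simp [μ, e] <;> ring)
    have h6 := t 3 6 (by ext i; fin_cases i <;> simp [μ, e] <;> ring)
    have h0 := k (u 0) (by convert hu; ext i; fin_cases i <;> simp [e, *])
    rw [Submodule.mem_bot]
    ext i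
    fin_cases i <;> simp [*]
  · have : Module.Finite ℚ ℝ := .of_surjective (LinearMap.proj (R := ℚ) (φ := fun _ : Fin 7 => ℝ) 0)
      fun c => ⟨fun _ => c, rfl⟩
    exact not_countable (Module.finBasis ℚ ℝ).equivFun.injective.countable
  iterate 3 ext i; fin_cases i <;> simp [μ, asc] <;> ring
  · simpa [μ, e, asc] using congrFun (h (e 1 1 + e 4 1) (e 1 1)).1 1
  · have := congrFun (h (e 1 1) (e 2 1)).1 6
    simp [μ, e] at this
    linarith

end Pool.Agent.Results.MP_52e257_al.Yes
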